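import Pool.Agent.Helper49.KR.St

/-!
# Project KR (MP_c973ff_an), module NEM: data of a fixed format exist at every point
-/

set_option autoImplicit false

namespace Pool.Agent.Helper47.KR

open Finset Filter Topology Module
open Pool.Agent.Helper49.KX Pool.Agent.Helper49.KR

theorem mem_Zs {r : ℕ} (S : Finset (Fin r)) (w : Fin r → ℂ) : w ∈ Zs r S ↔ ∀ i ∈ S, w i = 0 := Iff.rfl

theorem hNEM : StNem := by
  intro hGen r S S' m A B hAB hmA hmB hSm
  have hfr : finrank ℂ (Fin r → ℂ) = r := by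
    rw [Module.finrank_fintype_fun_eq_card, Fintype.card_fin]
  set a := A - m with ha
  set b := B - m with hb
  have hcd : Fintype.card (Fin a ⊕ Fin b ⊕ Fin m ⊕ Fin m) = r := by
    simp only [Fintype.card_sum, Fintype.card_fin]
    omega
  let e : Fin r ≃ Fin a ⊕ Fin b ⊕ Fin m ⊕ Fin m :=
    (Fintype.equivFinOfCardEq hcd).symm
  let κ' : Fin a ⊕ Fin b ⊕ Fin m ⊕ Fin m → Fin 4 :=
    Sum.elim (fun _ => 0) (Sum.elim (fun _ => 1) (Sum.elim (fun _ => 2) (fun _ => 3)))
  let sw : Fin a ⊕ Fin b ⊕ Fin m ⊕ Fin m ≃ Fin a ⊕ Fin b ⊕ Fin m ⊕ Fin m :=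
    Equiv.sumCongr (Equiv.refl _) (Equiv.sumCongr (Equiv.refl _) (Equiv.sumComm _ _))
  have hsw : ∀ x, sw (sw x) = x := by
    rintro (a | a | a | a) <;> rfl
  have hκ2 : ∀ x, κ' x = 2 → κ' (sw x) = 3 := by
    rintro (a | a | a | a) h
    · exact absurd (show (0 : Fin 4) = 2 from h) (by decide)
    · exact absurd (show (1 : Fin 4) = 2 from h) (by decide)
    · rfl
    · exact absurd (show (3 : Fin 4) = 2 from h) (by decide)
  have hκ3 : ∀ x, κ' x = 3 → κ' (sw x) = 2 := by
    rintro (a | a | a | a) h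
    · exact absurd (show (0 : Fin 4) = 3 from h) (by decide)
    · exact absurd (show (1 : Fin 4) = 3 from h) (by decide)
    · exact absurd (show (2 : Fin 4) = 3 from h) (by decide)
    · rfl
  refine ⟨fun l => κ' (e l), (e.trans sw).trans e.symm, ⟨?_, ?_, ?_⟩, ?_⟩
  · intro i
    simp only [Equiv.trans_apply, Equiv.apply_symm_apply, hsw, Equiv.symm_apply_apply]
  · intro i hi
    simp only [Equiv.trans_apply, Equiv.apply_symm_apply]
    exact hκ2 _ hi
  · intro i hi
    simp only [Equiv.trans_apply, Equiv.apply_symm_apply]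
    exact hκ3 _ hi
  intro c η hE1 hE2 hm hA hB hsup
  obtain ⟨P, Q, F, R, hP, hQ, hF, hPd, hQd, hFd, hRd, htop⟩ := hGen (Fin r → ℂ)
    (im c S) (im (1 - c) S) (im η S') a b m hE1 hE2 hm (by omega) (by omega) (by omega)
    (by rw [hfr]; omega)
  -- the basis
  let bP : Basis (Fin a) ℂ P := Module.finBasisOfFinrankEq ℂ P hPd
  let bQ : Basis (Fin b) ℂ Q := Module.finBasisOfFinrankEq ℂ Q hQd
  let bF : Basis (Fin m) ℂ F := Module.finBasisOfFinrankEq ℂ F hFd
  let bR : Basis (Fin m) ℂ R := Module.finBasisOfFinrankEq ℂ R hRd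
  let v : Fin a ⊕ Fin b ⊕ Fin m ⊕ Fin m → (Fin r → ℂ) :=
    Sum.elim (fun a => bP a) (Sum.elim (fun a => bQ a) (Sum.elim (fun a => bF a) (fun a => bR a)))
  have hspan : ⊤ ≤ Submodule.span ℂ (Set.range v) := by
    rw [← htop]
    have hsub : ∀ {m : ℕ} (W : Submodule ℂ (Fin r → ℂ)) (b : Basis (Fin m) ℂ W),
        (∀ a, ((b a : W) : Fin r → ℂ) ∈ Submodule.span ℂ (Set.range v)) →
        W ≤ Submodule.span ℂ (Set.range v) := by
      intro m W b hb w hw
      have h1 := b.sum_repr ⟨w, hw⟩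
      have h2 : w = ∑ a, (b.repr ⟨w, hw⟩ a) • ((b a : W) : Fin r → ℂ) := by
        have h3 := congrArg (Submodule.subtype W) h1
        rw [map_sum] at h3
        simp only [map_smul, Submodule.subtype_apply] at h3
        exact h3.symm
      rw [h2]
      exact Submodule.sum_mem _ fun a _ => Submodule.smul_mem _ _ (hb a)
    refine sup_le (sup_le (sup_le ?_ ?_) ?_) ?_
    · exact hsub P bP fun a => Submodule.subset_span ⟨Sum.inl a, rfl⟩
    · exact hsub Q bQ fun a => Submodule.subset_span ⟨Sum.inr (Sum.inl a), rfl⟩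
    · exact hsub F bF fun a => Submodule.subset_span ⟨Sum.inr (Sum.inr (Sum.inl a)), rfl⟩
    · exact hsub R bR fun a => Submodule.subset_span ⟨Sum.inr (Sum.inr (Sum.inr a)), rfl⟩
  have hli : LinearIndependent ℂ v :=
    linearIndependent_of_top_le_span_of_card_eq_finrank hspan (by rw [hcd, hfr])
  -- preimages
  have hwP : ∀ a, ∃ w ∈ Zs r S, c.mulVecLin w = bP a := fun a => by
    have := hP (bP a).2
    rwa [im, Submodule.mem_map] at this
  have hwQ : ∀ a, ∃ w ∈ Zs r S, (1 - c).mulVecLin w = bQ a := fun a => by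
    have := hQ (bQ a).2
    rwa [im, Submodule.mem_map] at this
  have hwF : ∀ a, ∃ w ∈ Zs r S', η.mulVecLin w = bF a := fun a => by
    have := hF (bF a).2
    rwa [im, Submodule.mem_map] at this
  choose wP hwP1 hwP2 using hwP
  choose wQ hwQ1 hwQ2 using hwQ
  choose wF hwF1 hwF2 using hwF
  let w : Fin a ⊕ Fin b ⊕ Fin m ⊕ Fin m → (Fin r → ℂ) :=
    Sum.elim wP (Sum.elim wQ (Sum.elim wF (fun a => bR a)))
  have hz01 : ∀ x, (κ' x = 0 ∨ κ' x = 1) → ∀ i ∈ S, w x i = 0 := by
    rintro (a | a | a | a) h i hi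
    · exact hwP1 a i hi
    · exact hwQ1 a i hi
    · rcases h with h | h
      · exact absurd (show (2 : Fin 4) = 0 from h) (by decide)
      · exact absurd (show (2 : Fin 4) = 1 from h) (by decide)
    · rcases h with h | h
      · exact absurd (show (3 : Fin 4) = 0 from h) (by decide)
      · exact absurd (show (3 : Fin 4) = 1 from h) (by decide)
  have hz2 : ∀ x, κ' x = 2 → ∀ i ∈ S', w x i = 0 := by
    rintro (a | a | a | a) h i hi
    · exact absurd (show (0 : Fin 4) = 2 from h) (by decide)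
    · exact absurd (show (1 : Fin 4) = 2 from h) (by decide)
    · exact hwF1 a i hi
    · exact absurd (show (3 : Fin 4) = 2 from h) (by decide)
  have hmul : ∀ (A : Matrix (Fin r) (Fin r) ℂ) (i l : Fin r),
      (A * Matrix.of fun i l => w (e l) i) i l = A.mulVecLin (w (e l)) i := by
    intro A i l
    rw [Matrix.mul_apply, Matrix.mulVecLin_apply, Matrix.mulVec, dotProduct]
    rfl
  have hcol : ∀ x, ∀ i, (if κ' x = 0 then c.mulVecLin (w x) i
      else if κ' x = 1 then w x i - c.mulVecLin (w x) i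
      else if κ' x = 2 then η.mulVecLin (w x) i else w x i) = v x i := by
    rintro (a | a | a | a) i
    · show c.mulVecLin (wP a) i = (bP a : Fin r → ℂ) i
      rw [hwP2]
    · show wQ a i - c.mulVecLin (wQ a) i = (bQ a : Fin r → ℂ) i
      rw [← hwQ2, Matrix.mulVecLin_apply, Matrix.mulVecLin_apply, Matrix.sub_mulVec,
        Matrix.one_mulVec, Pi.sub_apply]
    · show η.mulVecLin (wF a) i = (bF a : Fin r → ℂ) i
      rw [hwF2]
    · rfl
  refine ⟨Matrix.of fun i l => w (e l) i, ?_, ?_⟩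
  · intro i l
    exact ⟨fun h1 h2 => hz01 (e l) h1 i h2, fun h1 h2 => hz2 (e l) h1 i h2⟩
  · rw [← Matrix.linearIndependent_cols_iff_isUnit]
    have hcols : (Gm (fun l => κ' (e l)) (Matrix.of fun i l => w (e l) i) c η).col =
        fun l => v (e l) := by
      funext l i
      rw [Matrix.col_apply, ← hcol (e l) i]
      unfold Gm
      rw [Matrix.sub_apply, hmul, hmul]
      rfl
    rw [hcols]
    exact hli.comp e e.injective

end Pool.Agent.Helper47.KR
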